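import Pool.Agent.W_a51130_h68.Coord

/-! The figure-eight sister group as a one-cusped piece of dimension 3. -/

namespace QIG.Ex

open Matrix ComplexConjugate

/-- The group of the piece. -/
noncomputable def SGam : Subgroup (Equiv.Perm (HPt 2)) := Gt.map poinc

theorem SGam_isom (g : Equiv.Perm (HPt 2)) (hg : g ∈ SGam) (x y : HPt 2) :
    chd (g x) (g y) = chd x y := by
  obtain ⟨A, _, rfl⟩ := hg
  exact chd_poinc A x y

theorem SGam_free (g : Equiv.Perm (HPt 2)) (hg : g ∈ SGam) (x : HPt 2) (h : g x = x) :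
    g = 1 := by
  obtain ⟨A, hA, rfl⟩ := hg
  have h1 : act (cm A) (toHC x) = toHC x := by rw [← toHC_poinc, h]
  obtain ⟨y, hy⟩ := poinc_upper hA (fixed hA h1)
  rw [hy] at h ⊢
  have h2 := congrArg HPt.u h
  rw [transl_u] at h2
  have h3 : vec (iota y) = 0 := by
    have := add_eq_left.1 h2
    exact this
  rw [h3, transl_zero]

theorem SGam_cusp (g : Equiv.Perm (HPt 2)) (hg : g ∈ SGam) (x : HPt 2) (h1 : 1 / 2 < x.t)
    (h2 : 1 / 2 < (g x).t) : ∃ v, g = transl v := by
  obtain ⟨A, hA, rfl⟩ := hg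
  have h3 : (toHC (poinc A x)).t = 2 * (poinc A x).t := rfl
  rw [toHC_poinc, act_t] at h3
  have h4 : (toHC x).t = 2 * x.t := rfl
  have hd := den_pos (cm A) (toHC x)
  have h5 : den (cm A) (toHC x) < (toHC x).t := by
    have : 1 < (toHC x).t / den (cm A) (toHC x) := by linarith
    rwa [one_lt_div hd] at this
  have hc : A.1 1 0 = 0 := by
    by_contra hne
    have h6 := one_le_normSq hne
    have h7 := Complex.normSq_nonneg ((cm A).1 1 0 * (toHC x).z + (cm A).1 1 1)
    have h8 : Complex.normSq (iota (A.1 1 0)) * (toHC x).t ^ 2 ≤ den (cm A) (toHC x) := by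
      rw [den]
      simp only [cm_apply] at h7 ⊢
      linarith
    have h9 : 1 < (toHC x).t := by linarith
    nlinarith
  obtain ⟨y, hy⟩ := poinc_upper hA hc
  exact ⟨_, hy⟩

theorem transl_mem_SGam (y : Eis) : transl (vec (iota y)) ∈ SGam := by
  obtain ⟨A, hA, _, h⟩ := transl_mem y
  exact ⟨A, hA, h⟩

theorem SGam_toric : Submodule.span ℝ {v | transl v ∈ SGam} = ⊤ := by
  rw [eq_top_iff]
  intro v _
  have h1 : vec (iota 1) ∈ Submodule.span ℝ {v | transl v ∈ SGam} :=
    Submodule.subset_span (transl_mem_SGam 1)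
  have h2 : vec (iota w) ∈ Submodule.span ℝ {v | transl v ∈ SGam} :=
    Submodule.subset_span (transl_mem_SGam w)
  have h3 : (0 : ℝ) < √3 / 2 := by positivity
  obtain ⟨s, hs⟩ : ∃ s : ℝ, s * (√3 / 2) = v 1 := ⟨v 1 / (√3 / 2), by field_simp⟩
  have hv : v = (v 0 + s / 2) • vec (iota 1) + s • vec (iota w) := by
    ext i
    fin_cases i
    · simp [vec, iota_apply, w, om, QuadraticAlgebra.re_one, QuadraticAlgebra.im_one]
      ring
    · simp [vec, iota_apply, w, om, QuadraticAlgebra.re_one, QuadraticAlgebra.im_one]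
      linarith
  rw [hv]
  exact Submodule.add_mem _ (Submodule.smul_mem _ _ h1) (Submodule.smul_mem _ _ h2)

theorem toHC_base : toHC (base 2) = ⟨0, 2, two_pos⟩ := by
  apply HC.ext'
  · change 2 * cz 0 = 0
    have : cz 0 = 0 := by
      apply Complex.ext <;> simp [cz]
    rw [this, mul_zero]
  · change 2 * 1 = (2 : ℝ)
    norm_num

theorem qq_base (M : SpecialLinearGroup (Fin 2) ℂ) :
    qq ⟨0, 2, two_pos⟩ (act M ⟨0, 2, two_pos⟩) =
      Complex.normSq (M.1 0 0) + Complex.normSq (M.1 0 1) / 4 + 4 * Complex.normSq (M.1 1 0) +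
        Complex.normSq (M.1 1 1) := by
  have h1 : qq ⟨0, 2, two_pos⟩ (act M ⟨0, 2, two_pos⟩) =
      qq (act M ⟨0, 2, two_pos⟩) ⟨0, 2, two_pos⟩ := by
    simp only [qq]
    rw [Complex.normSq_sub, Complex.normSq_sub]
    simp only [map_zero, zero_add, zero_mul, Complex.zero_re, mul_zero, sub_zero, map_zero]
    ring
  rw [h1]
  have h2 := qq_eq (act M ⟨0, 2, two_pos⟩) ⟨0, 2, two_pos⟩
  rw [mat_act] at h2
  have h3 : ((Complex.normSq (M.1 0 0) + Complex.normSq (M.1 0 1) / 4 +
      4 * Complex.normSq (M.1 1 0) + Complex.normSq (M.1 1 1) : ℝ) : ℂ) =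
      trace (M.1 * mat ⟨0, 2, two_pos⟩ * M.1ᴴ * adjugate (mat ⟨0, 2, two_pos⟩)) := by
    simp only [mat, adjugate_fin_two_of, trace_fin_two, mul_apply, Fin.sum_univ_two,
      conjTranspose_apply, of_apply, cons_val', cons_val_zero, cons_val_one, map_zero]
    push_cast
    simp only [Complex.normSq_eq_conj_mul_self, RCLike.star_def]
    ring
  rw [← h3] at h2
  exact_mod_cast h2

theorem SGam_discrete (r : ℝ) :
    {g | g ∈ SGam ∧ chd (base 2) (g (base 2)) ≤ r}.Finite := by
  set S : Set Eis := {x : Eis | Complex.normSq (iota x) ≤ 4 * (2 * (r + 1))} with hS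
  have hSf : S.Finite := finite_normSq_le _
  have h1 : {A : SpecialLinearGroup (Fin 2) Eis | ∀ i j, A.1 i j ∈ S}.Finite := by
    have h2 : {M : Fin 2 → Fin 2 → Eis | ∀ i j, M i j ∈ S}.Finite := by
      have h3 : {f : Fin 2 → Eis | ∀ j, f j ∈ S}.Finite := by
        have := Set.Finite.pi' (fun _ : Fin 2 => hSf)
        exact this
      have := Set.Finite.pi' (fun _ : Fin 2 => h3)
      exact this
    refine Set.Finite.of_finite_image (f := fun A : SpecialLinearGroup (Fin 2) Eis =>
      (fun i j => A.1 i j : Fin 2 → Fin 2 → Eis)) (h2.subset ?_) ?_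
    · rintro _ ⟨A, hA, rfl⟩
      exact hA
    · intro A _ B _ hAB
      apply Subtype.ext
      exact hAB
  refine (h1.image poinc).subset ?_
  rintro g ⟨⟨A, hA, rfl⟩, hr⟩
  refine ⟨A, ?_, rfl⟩
  rw [chd_eq, toHC_poinc, toHC_base, qq_base] at hr
  have n00 := Complex.normSq_nonneg ((cm A).1 0 0)
  have n01 := Complex.normSq_nonneg ((cm A).1 0 1)
  have n10 := Complex.normSq_nonneg ((cm A).1 1 0)
  have n11 := Complex.normSq_nonneg ((cm A).1 1 1)
  intro i j
  change Complex.normSq (iota (A.1 i j)) ≤ _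
  rw [← cm_apply]
  fin_cases i <;> fin_cases j
  · change Complex.normSq ((cm A).1 0 0) ≤ _
    linarith
  · change Complex.normSq ((cm A).1 0 1) ≤ _
    linarith
  · change Complex.normSq ((cm A).1 1 0) ≤ _
    linarith
  · change Complex.normSq ((cm A).1 1 1) ≤ _
    linarith

/-- Among the matrices of `SL₂(ℤ[ω])` some maximises the height of the image of `y`. -/
theorem exists_max (y : HC) : ∃ A : SpecialLinearGroup (Fin 2) Eis,
    ∀ B : SpecialLinearGroup (Fin 2) Eis, den (cm A) y ≤ den (cm B) y := by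
  set D := den (cm 1) y with hD
  have hy := y.pos
  set R : ℝ := D / y.t ^ 2 with hR
  set R' : ℝ := 2 * D + 2 * (R * Complex.normSq y.z) with hR'
  -- bounds for the bottom row
  have hb : ∀ B : SpecialLinearGroup (Fin 2) Eis, den (cm B) y ≤ D →
      Complex.normSq (iota (B.1 1 0)) ≤ R ∧ Complex.normSq (iota (B.1 1 1)) ≤ R' := by
    intro B hB
    rw [den] at hB
    simp only [cm_apply] at hB
    have h1 := Complex.normSq_nonneg (iota (B.1 1 0) * y.z + iota (B.1 1 1))
    have h2 := Complex.normSq_nonneg (iota (B.1 1 0))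
    have h3 : Complex.normSq (iota (B.1 1 0)) ≤ R := by
      rw [hR, le_div_iff₀ (by positivity)]
      linarith
    refine ⟨h3, ?_⟩
    have h4 : 0 ≤ Complex.normSq (iota (B.1 1 0)) * y.t ^ 2 := by positivity
    have h5 : Complex.normSq (iota (B.1 1 0) * y.z + iota (B.1 1 1)) ≤ D := by linarith
    have h6 : Complex.normSq (iota (B.1 1 1)) ≤
        2 * Complex.normSq (iota (B.1 1 0) * y.z + iota (B.1 1 1)) +
          2 * Complex.normSq (iota (B.1 1 0) * y.z) := by
      have := Complex.normSq_nonneg (iota (B.1 1 0) * y.z + iota (B.1 1 1) + iota (B.1 1 0) * y.z)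
      simp only [Complex.normSq_apply, Complex.add_re, Complex.add_im] at this ⊢
      nlinarith
    have h7 : Complex.normSq (iota (B.1 1 0) * y.z) ≤ R * Complex.normSq y.z := by
      rw [map_mul]
      have := Complex.normSq_nonneg y.z
      gcongr
    linarith
  set T : Set (Eis × Eis) := {p | ∃ B : SpecialLinearGroup (Fin 2) Eis,
    (B.1 1 0, B.1 1 1) = p ∧ den (cm B) y ≤ D} with hT
  have hTf : T.Finite := by
    refine ((finite_normSq_le R).prod (finite_normSq_le R')).subset ?_
    rintro _ ⟨B, rfl, hB⟩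
    exact hb B hB
  have hTn : T.Nonempty := ⟨_, 1, rfl, le_refl _⟩
  obtain ⟨p, ⟨A, hA, hAD⟩, hmin⟩ := Set.exists_min_image T
    (fun p : Eis × Eis => Complex.normSq (iota p.1 * y.z + iota p.2) +
      Complex.normSq (iota p.1) * y.t ^ 2) hTf hTn
  refine ⟨A, fun B => ?_⟩
  have hAp : den (cm A) y = Complex.normSq (iota p.1 * y.z + iota p.2) +
      Complex.normSq (iota p.1) * y.t ^ 2 := by
    rw [← hA]
    rfl
  rcases le_or_gt (den (cm B) y) D with h | h
  · have := hmin _ ⟨B, rfl, h⟩
    rw [← hAp] at this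
    exact this
  · exact hAD.trans h.le

/-- the inversion `z ↦ -1/z` -/
def invMat : SpecialLinearGroup (Fin 2) Eis := ⟨!![0, -1; 1, 0], by rw [det_fin_two_of]; ring⟩

theorem height_ge (y : HC) : ∃ A : SpecialLinearGroup (Fin 2) Eis,
    1 / 2 ≤ (act (cm A) y).t := by
  obtain ⟨A, hA⟩ := exists_max y
  refine ⟨A, ?_⟩
  set y1 := act (cm A) y with hy1
  obtain ⟨x, hx⟩ := exists_near y1.z
  set B := upperMat 1 (-x) 1 (one_mul 1) with hB
  have hBden : den (cm B) y1 = 1 := by
    change Complex.normSq (iota 0 * y1.z + iota 1) + Complex.normSq (iota 0) * _ = 1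
    simp
  have hy2t : (act (cm B) y1).t = y1.t := by rw [act_t, hBden, div_one]
  have hy2z : (act (cm B) y1).z = y1.z - iota x := by
    rw [act_z, hBden]
    change ((iota 1 * y1.z + iota (-x)) * conj (iota 0 * y1.z + iota 1) +
      iota 1 * conj (iota 0) * _) / _ = _
    simp only [map_zero, map_one, zero_mul, zero_add, mul_zero, add_zero, Complex.ofReal_one,
      div_one, mul_one, one_mul, map_neg]
    ring
  -- compare the heights of `y1` and of `invMat * B`
  have hcomp : den (cm A) y ≤ den (cm (invMat * (B * A))) y := hA _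
  have h1 : (act (cm (invMat * (B * A))) y).t ≤ y1.t := by
    rw [hy1, act_t, act_t]
    exact div_le_div_of_nonneg_left y.pos.le (den_pos _ _) hcomp
  have h2 : cm (invMat * (B * A)) = cm invMat * (cm B * cm A) := by
    rw [cm, map_mul, map_mul]
  rw [h2, act_mul, act_mul, ← hy1, act_t, hy2t] at h1
  have h3 : den (cm invMat) (act (cm B) y1) =
      Complex.normSq (y1.z - iota x) + y1.t ^ 2 := by
    change Complex.normSq (iota 1 * (act (cm B) y1).z + iota 0) +
      Complex.normSq (iota 1) * (act (cm B) y1).t ^ 2 = _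
    rw [hy2t, hy2z]
    simp
  rw [h3] at h1
  have hpos := y1.pos
  have h4 : 0 < Complex.normSq (y1.z - iota x) + y1.t ^ 2 := by
    have := Complex.normSq_nonneg (y1.z - iota x)
    positivity
  rw [div_le_iff₀ h4] at h1
  have h5 : 1 ≤ Complex.normSq (y1.z - iota x) + y1.t ^ 2 := by
    by_contra hlt
    push Not at hlt
    nlinarith
  have h6 : 1 / 4 ≤ y1.t ^ 2 := by linarith
  nlinarith

theorem SGam_cocompact : ∃ r : ℝ, ∀ x : HPt 2, (∀ g ∈ SGam, (g x).t ≤ 1) →
    ∃ g ∈ SGam, chd (g x) (base 2) ≤ r := by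
  refine ⟨10, fun x hx => ?_⟩
  obtain ⟨A, hA⟩ := height_ge (toHC x)
  obtain ⟨B, hB0, hBA⟩ := exists_upper A
  -- the height of `B A x` equals the height of `A x`
  have hBu : Complex.normSq (iota (B.1 1 1)) = 1 := by
    have h1 := det_eq B
    rw [hB0, mul_zero, sub_zero] at h1
    have h2 : Complex.normSq (iota (B.1 0 0)) * Complex.normSq (iota (B.1 1 1)) = 1 := by
      rw [← map_mul, ← map_mul, h1, map_one, map_one]
    have h3 : B.1 0 0 ≠ 0 := by
      intro h
      rw [h] at h1
      simp at h1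
    have h4 : B.1 1 1 ≠ 0 := by
      intro h
      rw [h] at h1
      simp at h1
    have h5 := one_le_normSq h3
    have h6 := one_le_normSq h4
    nlinarith
  set y1 := act (cm A) (toHC x) with hy1
  have hBden : den (cm B) y1 = 1 := by
    rw [den, cm_apply, cm_apply, hB0]
    simp [hBu]
  set y2 := act (cm B) y1 with hy2
  have hy2t : y2.t = y1.t := by rw [hy2, act_t, hBden, div_one]
  have hy2' : y2 = toHC (poinc (B * A) x) := by
    rw [toHC_poinc, cm, map_mul, act_mul]
  obtain ⟨s, hs⟩ := exists_near_two y2.z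
  have hg1 : poinc (B * A) ∈ SGam := ⟨_, hBA, rfl⟩
  have hg2 : transl (vec (iota (-s))) * poinc (B * A) ∈ SGam :=
    SGam.mul_mem (transl_mem_SGam _) hg1
  refine ⟨_, hg2, ?_⟩
  have hle := hx _ hg1
  set p := poinc (B * A) x with hp
  change chd (transl (vec (iota (-s))) p) (base 2) ≤ 10
  rw [chd_eq, toHC_base, qq]
  have ez : (toHC (transl (vec (iota (-s))) p)).z = y2.z - iota (2 * s) := by
    rw [hy2']
    change 2 * cz (p.u + vec (iota (-s))) = 2 * cz p.u - iota (2 * s)
    rw [cz_add, cz_vec, map_neg, map_mul, map_ofNat]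
    ring
  have et : (toHC (transl (vec (iota (-s))) p)).t = y2.t := by
    rw [hy2']
    rfl
  rw [ez, et]
  simp only [sub_zero]
  have ht1 : 1 / 2 ≤ y2.t := by rw [hy2t]; exact hA
  have ht2 : y2.t ≤ 2 := by
    rw [hy2']
    change 2 * p.t ≤ 2
    linarith
  have hpos : 0 < y2.t * 2 := by linarith
  have : (Complex.normSq (y2.z - iota (2 * s)) + y2.t ^ 2 + 2 ^ 2) / (y2.t * 2) ≤ 22 := by
    rw [div_le_iff₀ hpos]
    nlinarith
  linarith

/-- The one-cusped piece of the figure-eight sister manifold. -/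
noncomputable def sister : Piece 2 where
  Γ := SGam
  isom := SGam_isom
  free := SGam_free
  discrete := SGam_discrete
  cusp := SGam_cusp
  toric := SGam_toric
  cocompact := SGam_cocompact

/-- The cusp lattice of the sister piece is `ℤ[ω]`. -/
theorem sister_lat (v : E 2) : v ∈ sister.lat ↔ ∃ y : Eis, cz v = iota y := by
  constructor
  · intro hv
    obtain ⟨A, hA, h⟩ : transl v ∈ SGam := hv
    have hc : A.1 1 0 = 0 := by
      by_contra hne
      -- translations preserve the height
      have h6 := one_le_normSq hne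
      set x : HPt 2 := ⟨0, 1, one_pos⟩ with hx
      have h1 : (toHC (poinc A x)).t = (toHC x).t := by
        rw [h]
        rfl
      rw [toHC_poinc, act_t, div_eq_iff (den_pos _ _).ne'] at h1
      have h2 : (toHC x).t = 2 := by
        change 2 * (1 : ℝ) = 2
        norm_num
      rw [h2] at h1
      have h3 : den (cm A) (toHC x) = 1 := by linarith
      have h7 := Complex.normSq_nonneg ((cm A).1 1 0 * (toHC x).z + (cm A).1 1 1)
      rw [den, h2] at h3
      simp only [cm_apply] at h3 h7
      linarith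
    obtain ⟨y, hy⟩ := poinc_upper hA hc
    rw [h] at hy
    have := transl_injective hy
    exact ⟨y, by rw [this, cz_vec]⟩
  · rintro ⟨y, hy⟩
    have : v = vec (iota y) := by rw [← hy, vec_cz]
    rw [this]
    exact transl_mem_SGam y

/-- Explicit description of the group of the sister piece: all Poincaré extensions, in coordinates
divided by `2`, of the matrices `(a, b; c, d)` of determinant `1` with entries in `ℤ[ω]` and
`c = b`, `d = a + ω b` mod `2`. -/
theorem mem_sister (g : Equiv.Perm (HPt 2)) : g ∈ sister.Γ ↔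
    ∃ a b c d r s : Eis, a * d - b * c = 1 ∧ c = b + 2 * r ∧ d = a + w * b + 2 * s ∧
      ∀ x : HPt 2,
        2 * cz (g x).u * (Complex.normSq (iota c * (2 * cz x.u) + iota d) +
            Complex.normSq (iota c) * (2 * x.t) ^ 2 : ℝ) =
          (iota a * (2 * cz x.u) + iota b) * conj (iota c * (2 * cz x.u) + iota d) +
            iota a * conj (iota c) * (2 * x.t) ^ 2 ∧
        (g x).t * (Complex.normSq (iota c * (2 * cz x.u) + iota d) +
            Complex.normSq (iota c) * (2 * x.t) ^ 2) = x.t := by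
  constructor
  · rintro ⟨A, hA, rfl⟩
    obtain ⟨h1, h2⟩ := mem_Gt.1 hA
    obtain ⟨r, hr⟩ := red_eq_zero.1 (show red (A.1 1 0 - A.1 0 1) = 0 by
      rw [map_sub, h1, sub_self])
    obtain ⟨s, hs⟩ := red_eq_zero.1 (show red (A.1 1 1 - (A.1 0 0 + w * A.1 0 1)) = 0 by
      rw [map_sub, map_add, map_mul, h2, sub_self])
    refine ⟨A.1 0 0, A.1 0 1, A.1 1 0, A.1 1 1, r, s, det_eq A, by linear_combination hr,
      by linear_combination hs, fun x => ?_⟩
    have hd := den_pos (cm A) (toHC x)
    have hd' : ((den (cm A) (toHC x) : ℝ) : ℂ) ≠ 0 := by exact_mod_cast hd.ne'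
    have hz := act_z (cm A) (toHC x)
    have ht := act_t (cm A) (toHC x)
    rw [← toHC_poinc] at hz ht
    rw [eq_div_iff hd'] at hz
    rw [eq_div_iff hd.ne'] at ht
    constructor
    · have := hz
      rw [toHC_z] at this
      simp only [den, cm_apply, toHC_z, toHC_t] at this
      rw [this]
      push_cast
      ring
    · have := ht
      simp only [den, cm_apply, toHC_z, toHC_t] at this
      linarith
  · rintro ⟨a, b, c, d, r, s, hdet, hc, hd, h⟩
    set A : SpecialLinearGroup (Fin 2) Eis := ⟨!![a, b; c, d], by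
      rw [det_fin_two_of]; exact hdet⟩ with hA
    have hAG : A ∈ Gt := by
      rw [mem_Gt]
      have h2 : red 2 = 0 := by decide
      change red c = red b ∧ red d = red a + red w * red b
      constructor
      · rw [hc, map_add, map_mul, h2, zero_mul, add_zero]
      · rw [hd, map_add, map_add, map_mul, map_mul, h2, zero_mul, add_zero]
    refine ⟨A, hAG, ?_⟩
    apply Equiv.ext
    intro x
    apply toHC.injective
    obtain ⟨e1, e2⟩ := h x
    have hdp := den_pos (cm A) (toHC x)
    have hd' : ((den (cm A) (toHC x) : ℝ) : ℂ) ≠ 0 := by exact_mod_cast hdp.ne'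
    have hdd : den (cm A) (toHC x) = Complex.normSq (iota c * (2 * cz x.u) + iota d) +
        Complex.normSq (iota c) * (2 * x.t) ^ 2 := rfl
    rw [toHC_poinc]
    apply HC.ext'
    · rw [act_z, div_eq_iff hd', toHC_z x, toHC_z (g x), hdd, e1]
      change (iota a * (2 * cz x.u) + iota b) * conj (iota c * (2 * cz x.u) + iota d) +
            iota a * conj (iota c) * ((2 * x.t : ℝ) : ℂ) ^ 2 = _
      push_cast
      ring
    · rw [act_t, div_eq_iff hdp.ne', toHC_t, toHC_t, hdd]
      linarith

end QIG.Ex
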