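import Mathlib

/-! The action of `SL(2, ℂ)` on the upper half space `ℂ × ℝ_{>0}`, by Hermitian matrices. -/

namespace QIG.Ex

open Matrix ComplexConjugate

/-- upper half space over `ℂ` -/
structure HC where
  /-- horizontal coordinate -/
  z : ℂ
  /-- height -/
  t : ℝ
  /-- positivity -/
  pos : 0 < t

theorem HC.ext' {x y : HC} (h1 : x.z = y.z) (h2 : x.t = y.t) : x = y := by
  cases x; cases y; cases h1; cases h2; rfl

/-- twice the hyperbolic cosine of the distance -/
noncomputable def qq (x y : HC) : ℝ :=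
  (Complex.normSq (x.z - y.z) + x.t ^ 2 + y.t ^ 2) / (x.t * y.t)

/-- the Hermitian matrix of a point -/
noncomputable def mat (x : HC) : Matrix (Fin 2) (Fin 2) ℂ :=
  !![(((Complex.normSq x.z + x.t ^ 2) / x.t : ℝ) : ℂ), x.z / x.t; conj x.z / x.t, 1 / x.t]

theorem mat_herm (x : HC) : (mat x)ᴴ = mat x := by
  ext i j
  fin_cases i <;> fin_cases j <;> simp [mat]

theorem mat_det (x : HC) : (mat x).det = 1 := by
  have ht : (x.t : ℂ) ≠ 0 := by exact_mod_cast x.pos.ne'
  simp only [mat, det_fin_two_of]
  push_cast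
  rw [Complex.normSq_eq_conj_mul_self]
  field_simp
  ring

theorem qq_eq (x y : HC) : ((qq x y : ℝ) : ℂ) = trace (mat x * adjugate (mat y)) := by
  have hx : (x.t : ℂ) ≠ 0 := by exact_mod_cast x.pos.ne'
  have hy : (y.t : ℂ) ≠ 0 := by exact_mod_cast y.pos.ne'
  simp only [mat, qq, adjugate_fin_two_of, trace_fin_two, mul_apply, Fin.sum_univ_two]
  push_cast
  simp [Complex.normSq_eq_conj_mul_self]
  field_simp
  ring

/-- matrices of points -/
def IsPt (X : Matrix (Fin 2) (Fin 2) ℂ) : Prop := Xᴴ = X ∧ X.det = 1 ∧ 0 < (X 1 1).re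

theorem mat_isPt (x : HC) : IsPt (mat x) := by
  refine ⟨mat_herm x, mat_det x, ?_⟩
  simp only [mat]
  have : (1 / (x.t : ℂ)) = ((1 / x.t : ℝ) : ℂ) := by push_cast; rfl
  simp only [of_apply, cons_val', cons_val_one, cons_val_zero]
  rw [this, Complex.ofReal_re]
  exact one_div_pos.mpr x.pos

/-- the point of a matrix -/
noncomputable def ofMat (X : Matrix (Fin 2) (Fin 2) ℂ) (h : IsPt X) : HC :=
  ⟨X 0 1 / X 1 1, 1 / (X 1 1).re, one_div_pos.mpr h.2.2⟩

theorem isPt_im {X : Matrix (Fin 2) (Fin 2) ℂ} (h : Xᴴ = X) (i : Fin 2) :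
    (((X i i).re : ℝ) : ℂ) = X i i := by
  have := congrFun (congrFun h i) i
  rw [conjTranspose_apply] at this
  exact Complex.conj_eq_iff_re.mp this

theorem mat_ofMat (X : Matrix (Fin 2) (Fin 2) ℂ) (h : IsPt X) : mat (ofMat X h) = X := by
  obtain ⟨h1, h2, h3⟩ := id h
  have hr := isPt_im h1 1
  have h10 : X 1 0 = conj (X 0 1) := by
    have := congrFun (congrFun h1 1) 0
    rw [conjTranspose_apply] at this
    exact this.symm
  have hne : X 1 1 ≠ 0 := by
    intro h0
    rw [h0] at h3
    simp at h3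
  have hc : conj (X 1 1) = X 1 1 := by rw [← hr, Complex.conj_ofReal]
  rw [det_fin_two, h10] at h2
  have hre : ((X 1 1).re : ℂ) ≠ 0 := by rw [hr]; exact hne
  ext i j
  fin_cases i <;> fin_cases j
  · simp only [mat, ofMat, Fin.zero_eta, of_apply, cons_val', cons_val_zero]
    push_cast
    rw [Complex.normSq_eq_conj_mul_self, map_div₀, hr, hc]
    field_simp
    linear_combination -h2
  · simp only [mat, ofMat, Fin.zero_eta, Fin.mk_one, of_apply, cons_val', cons_val_zero,
      cons_val_one]
    push_cast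
    rw [hr]
    field_simp
  · simp only [mat, ofMat, Fin.zero_eta, Fin.mk_one, of_apply, cons_val', cons_val_zero,
      cons_val_one]
    push_cast
    rw [hr, map_div₀, hc, h10]
    field_simp
  · simp only [mat, ofMat, Fin.mk_one, of_apply, cons_val', cons_val_one]
    push_cast
    rw [hr]
    field_simp

theorem ofMat_mat (x : HC) (h : IsPt (mat x)) : ofMat (mat x) h = x := by
  have ht : (x.t : ℂ) ≠ 0 := by exact_mod_cast x.pos.ne'
  have : (1 / (x.t : ℂ)) = ((1 / x.t : ℝ) : ℂ) := by push_cast; rfl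
  apply HC.ext'
  · simp only [ofMat, mat, of_apply, cons_val', cons_val_zero, cons_val_one]
    field_simp
  · change 1 / (1 / (x.t : ℂ)).re = x.t
    rw [this, Complex.ofReal_re]
    simp

theorem mat_injective : Function.Injective mat := by
  intro x y h
  rw [← ofMat_mat x (mat_isPt x), ← ofMat_mat y (mat_isPt y)]
  simp only [ofMat]
  congr 1 <;> rw [h]

theorem isPt_conj (M : SpecialLinearGroup (Fin 2) ℂ) {X : Matrix (Fin 2) (Fin 2) ℂ}
    (h : IsPt X) : IsPt (M.1 * X * M.1ᴴ) := by
  obtain ⟨h1, h2, h3⟩ := h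
  refine ⟨?_, ?_, ?_⟩
  · rw [conjTranspose_mul, conjTranspose_mul, conjTranspose_conjTranspose, h1, mul_assoc]
  · rw [det_mul, det_mul, det_conjTranspose, h2, M.2]
    simp
  · -- positivity
    have hr := isPt_im h1 1
    have h10 : X 1 0 = conj (X 0 1) := by
      have := congrFun (congrFun h1 1) 0
      rw [conjTranspose_apply] at this
      exact this.symm
    have hdet : M.1 0 0 * M.1 1 1 - M.1 0 1 * M.1 1 0 = 1 := by
      have := M.2
      rwa [det_fin_two] at this
    rw [det_fin_two, h10] at h2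
    set γ := (X 1 1).re with hγ
    set c := M.1 1 0 with hc
    set d := M.1 1 1 with hd
    have key : (γ : ℂ) * (M.1 * X * M.1ᴴ) 1 1 =
        ((Complex.normSq (c * X 0 1 + d * γ) + Complex.normSq c : ℝ) : ℂ) := by
      simp only [mul_apply, Fin.sum_univ_two, conjTranspose_apply]
      rw [← hc, ← hd, h10, ← hr]
      push_cast
      rw [Complex.normSq_eq_conj_mul_self, Complex.normSq_eq_conj_mul_self]
      simp only [map_add, map_mul, Complex.conj_ofReal, RCLike.star_def]
      have h2' : X 0 0 * (γ : ℂ) = 1 + X 0 1 * conj (X 0 1) := by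
        rw [← hr] at h2
        linear_combination h2
      linear_combination (c * conj c) * h2'
    have key2 : γ * ((M.1 * X * M.1ᴴ) 1 1).re =
        Complex.normSq (c * X 0 1 + d * γ) + Complex.normSq c := by
      have := congrArg Complex.re key
      rwa [Complex.re_ofReal_mul, Complex.ofReal_re] at this
    have hpos : 0 < Complex.normSq (c * X 0 1 + d * γ) + Complex.normSq c := by
      by_cases hc0 : c = 0
      · have hd0 : d ≠ 0 := by
          intro h0
          rw [hc0, h0] at hdet
          simp at hdet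
        have : (γ : ℂ) ≠ 0 := by exact_mod_cast h3.ne'
        rw [hc0]
        simp only [zero_mul, zero_add, map_zero, add_zero]
        exact Complex.normSq_pos.mpr (mul_ne_zero hd0 this)
      · have := Complex.normSq_pos.mpr hc0
        have h' := Complex.normSq_nonneg (c * X 0 1 + d * γ)
        linarith
    rw [← key2] at hpos
    exact (mul_pos_iff_of_pos_left h3).mp hpos

/-- the action -/
noncomputable def act (M : SpecialLinearGroup (Fin 2) ℂ) (x : HC) : HC :=
  ofMat (M.1 * mat x * M.1ᴴ) (isPt_conj M (mat_isPt x))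

theorem mat_act (M : SpecialLinearGroup (Fin 2) ℂ) (x : HC) :
    mat (act M x) = M.1 * mat x * M.1ᴴ := mat_ofMat _ _

theorem act_mul (M N : SpecialLinearGroup (Fin 2) ℂ) (x : HC) :
    act (M * N) x = act M (act N x) := by
  apply mat_injective
  rw [mat_act, mat_act, mat_act]
  change (M.1 * N.1) * mat x * (M.1 * N.1)ᴴ = _
  rw [conjTranspose_mul]
  simp only [mul_assoc]

theorem act_one (x : HC) : act 1 x = x := by
  apply mat_injective
  rw [mat_act]
  simp

theorem qq_act (M : SpecialLinearGroup (Fin 2) ℂ) (x y : HC) :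
    qq (act M x) (act M y) = qq x y := by
  have h : ((qq (act M x) (act M y) : ℝ) : ℂ) = ((qq x y : ℝ) : ℂ) := by
    rw [qq_eq, qq_eq, mat_act, mat_act, adjugate_mul_distrib, adjugate_mul_distrib]
    have h1 : M.1ᴴ * adjugate (M.1ᴴ) = 1 := by
      rw [mul_adjugate, det_conjTranspose, M.2]
      simp
    have h2 : adjugate M.1 * M.1 = 1 := by
      rw [adjugate_mul, M.2]
      simp
    calc trace (M.1 * mat x * M.1ᴴ * (adjugate (M.1ᴴ) * (adjugate (mat y) * adjugate M.1)))
        = trace (M.1 * mat x * (M.1ᴴ * adjugate (M.1ᴴ)) * (adjugate (mat y) * adjugate M.1)) := by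
          simp only [mul_assoc]
      _ = trace (M.1 * (mat x * adjugate (mat y) * adjugate M.1)) := by
          rw [h1]; simp only [mul_assoc, one_mul]
      _ = trace (mat x * adjugate (mat y) * adjugate M.1 * M.1) := by rw [trace_mul_comm]
      _ = _ := by rw [mul_assoc, h2, mul_one]
  exact_mod_cast h

/-- the denominator -/
noncomputable def den (M : SpecialLinearGroup (Fin 2) ℂ) (x : HC) : ℝ :=
  Complex.normSq (M.1 1 0 * x.z + M.1 1 1) + Complex.normSq (M.1 1 0) * x.t ^ 2

theorem act_t_inv (M : SpecialLinearGroup (Fin 2) ℂ) (x : HC) :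
    1 / (act M x).t = den M x / x.t := by
  have hx : (x.t : ℂ) ≠ 0 := by exact_mod_cast x.pos.ne'
  have h := congrFun (congrFun (mat_act M x) 1) 1
  have h1 : mat (act M x) 1 1 = (((1 / (act M x).t : ℝ)) : ℂ) := by
    simp [mat]
  rw [h1] at h
  have h2 : (M.1 * mat x * M.1ᴴ) 1 1 = ((den M x / x.t : ℝ) : ℂ) := by
    simp only [mul_apply, Fin.sum_univ_two, conjTranspose_apply, den, mat, of_apply, cons_val',
      cons_val_zero, cons_val_one]
    push_cast
    simp only [Complex.normSq_eq_conj_mul_self, map_add, map_mul, RCLike.star_def]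
    field_simp
    ring
  rw [h2] at h
  exact_mod_cast h

theorem den_pos (M : SpecialLinearGroup (Fin 2) ℂ) (x : HC) : 0 < den M x := by
  have h := act_t_inv M x
  have h1 : 0 < 1 / (act M x).t := one_div_pos.mpr (act M x).pos
  rw [h] at h1
  exact (div_pos_iff_of_pos_right x.pos).mp h1

theorem act_t (M : SpecialLinearGroup (Fin 2) ℂ) (x : HC) :
    (act M x).t = x.t / den M x := by
  have h := act_t_inv M x
  have h1 := (act M x).pos
  have h2 := den_pos M x
  have h3 := x.pos
  rw [one_div, inv_eq_iff_eq_inv] at h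
  rw [h, inv_div]

theorem act_z (M : SpecialLinearGroup (Fin 2) ℂ) (x : HC) :
    (act M x).z = ((M.1 0 0 * x.z + M.1 0 1) * conj (M.1 1 0 * x.z + M.1 1 1) +
      M.1 0 0 * conj (M.1 1 0) * x.t ^ 2) / den M x := by
  have hx : (x.t : ℂ) ≠ 0 := by exact_mod_cast x.pos.ne'
  have hd : (den M x : ℂ) ≠ 0 := by exact_mod_cast (den_pos M x).ne'
  have h := congrFun (congrFun (mat_act M x) 0) 1
  have h1 : mat (act M x) 0 1 = (act M x).z / (act M x).t := by
    simp [mat]
  rw [h1, act_t] at h
  have h2 : (M.1 * mat x * M.1ᴴ) 0 1 = ((M.1 0 0 * x.z + M.1 0 1) *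
      conj (M.1 1 0 * x.z + M.1 1 1) + M.1 0 0 * conj (M.1 1 0) * x.t ^ 2) / x.t := by
    simp only [mul_apply, Fin.sum_univ_two, conjTranspose_apply, mat, of_apply, cons_val',
      cons_val_zero, cons_val_one]
    push_cast
    simp only [Complex.normSq_eq_conj_mul_self, map_add, map_mul, RCLike.star_def]
    field_simp
    ring
  rw [h2] at h
  push_cast at h
  field_simp at h
  field_simp
  linear_combination h

end QIG.Ex
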