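import Pool.Agent.W_a51130_h68.Eis

/-! The congruence group: matrices `(a, b; c, d)` in `SL₂(ℤ[ω])` with `c = b` and `d = a + ω b`
mod 2. -/

namespace QIG.Ex

open QuadraticAlgebra Matrix

/-- The matrices `(a, b; c, d)` in `SL₂(ℤ[ω])` with `c = b` and `d = a + ω b` mod 2; their
reductions mod 2 form a cyclic group of order 5 in `SL₂(F₄)`. -/
def Gt : Subgroup (SpecialLinearGroup (Fin 2) Eis) where
  carrier := {A | red (A.1 1 0) = red (A.1 0 1) ∧
    red (A.1 1 1) = red (A.1 0 0) + red w * red (A.1 0 1)}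
  one_mem' := by
    constructor <;> simp
  mul_mem' := by
    rintro A B ⟨hA1, hA2⟩ ⟨hB1, hB2⟩
    constructor
    · change red ((A.1 * B.1) 1 0) = red ((A.1 * B.1) 0 1)
      simp only [mul_apply, Fin.sum_univ_two, map_add, map_mul]
      rw [hA1, hA2, hB1, hB2]
      ring
    · change red ((A.1 * B.1) 1 1) = red ((A.1 * B.1) 0 0) + red w * red ((A.1 * B.1) 0 1)
      simp only [mul_apply, Fin.sum_univ_two, map_add, map_mul]
      rw [hA1, hA2, hB1, hB2]
      ring
  inv_mem' := by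
    rintro A ⟨hA1, hA2⟩
    constructor
    · change red ((adjugate A.1) 1 0) = red ((adjugate A.1) 0 1)
      rw [adjugate_fin_two]
      simp only [of_apply, cons_val', cons_val_zero, cons_val_one, map_neg]
      rw [hA1]
    · change red ((adjugate A.1) 1 1) = red ((adjugate A.1) 0 0) + red w * red ((adjugate A.1) 0 1)
      rw [adjugate_fin_two]
      simp only [of_apply, cons_val', cons_val_zero, cons_val_one, map_neg]
      rw [hA2]
      ring

theorem mem_Gt {A : SpecialLinearGroup (Fin 2) Eis} : A ∈ Gt ↔ red (A.1 1 0) = red (A.1 0 1) ∧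
    red (A.1 1 1) = red (A.1 0 0) + red w * red (A.1 0 1) := Iff.rfl

theorem det_eq (A : SpecialLinearGroup (Fin 2) Eis) :
    A.1 0 0 * A.1 1 1 - A.1 0 1 * A.1 1 0 = 1 := by
  have := A.2
  rwa [det_fin_two] at this

theorem two_F4 : (2 : F4) = 0 := by decide

/-- The square of an Eisenstein integer `= 1` mod 2 is `1` mod 4. -/
theorem sq_of_red_one {a : Eis} (h : red a = 1) : ∃ y, a * a = 1 + 4 * y := by
  have h1 : red (a - 1) = 0 := by rw [map_sub, h, map_one, sub_self]
  obtain ⟨x, hx⟩ := red_eq_zero.1 h1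
  refine ⟨x + x * x, ?_⟩
  have : a = 1 + 2 * x := by linear_combination hx
  rw [this]
  ring

theorem F4_sq_one : ∀ a0 a1 : ZMod 2, (⟨a0, a1⟩ : F4) * ⟨a0, a1⟩ = 1 → (⟨a0, a1⟩ : F4) = 1 := by
  decide

theorem F4_sq_one' {a : F4} (h : a * a = 1) : a = 1 := by
  obtain ⟨a0, a1⟩ := a
  exact F4_sq_one a0 a1 h

/-- Units: if `a d = 1` and `a = 1` mod 2 then `a = d = ±1`. -/
theorem unit_of_mul {a d : Eis} (h : a * d = 1) (ha : red a = 1) :
    (a = 1 ∧ d = 1) ∨ (a = -1 ∧ d = -1) := by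
  have h1 : Complex.normSq (iota a) * Complex.normSq (iota d) = 1 := by
    rw [← map_mul, ← map_mul, h, map_one, map_one]
  have ha0 : a ≠ 0 := by
    rintro rfl
    simp at h
  have hd0 : d ≠ 0 := by
    rintro rfl
    simp at h
  have h2 := one_le_normSq ha0
  have h3 := one_le_normSq hd0
  have h4 : Complex.normSq (iota a) = 1 := by nlinarith
  have h5 : red (a - 1) = 0 := by rw [map_sub, ha, map_one, sub_self]
  obtain ⟨x, hx⟩ := red_eq_zero.1 h5
  have h6 : a = 1 + 2 * x := by linear_combination hx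
  rw [normSq_iota] at h4
  have h7 : a.re ^ 2 - a.re * a.im + a.im ^ 2 = 1 := by exact_mod_cast h4
  have hre : a.re = 1 + 2 * x.re := by
    rw [h6]
    simp
  have him : a.im = 2 * x.im := by
    rw [h6]
    simp
  have h8 : x.im = 0 := by
    rw [him] at h7
    have : 3 * (2 * x.im) ^ 2 ≤ 4 := by nlinarith [sq_nonneg (2 * a.re - 2 * x.im)]
    by_contra hne
    have h9 : 1 ≤ x.im ^ 2 := by
      rcases lt_or_gt_of_ne hne with h | h <;> nlinarith
    nlinarith
  have h9 : a.im = 0 := by rw [him, h8, mul_zero]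
  rw [h9] at h7
  have h10 : a.re ^ 2 = 1 := by linarith
  have h11 : a.re = 1 ∨ a.re = -1 := by
    have : (a.re - 1) * (a.re + 1) = 0 := by linear_combination h10
    rcases mul_eq_zero.1 this with h | h
    · left; omega
    · right; omega
  rcases h11 with h12 | h12
  · left
    have ha1 : a = 1 := QuadraticAlgebra.ext h12 h9
    rw [ha1, one_mul] at h
    exact ⟨ha1, h⟩
  · right
    have ha1 : a = -1 := by
      ext
      · simp [h12]
      · simp [h9]
    rw [ha1] at h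
    exact ⟨ha1, by linear_combination -h⟩

/-- Elements of the group fixing the cusp. -/
theorem upper {A : SpecialLinearGroup (Fin 2) Eis} (hA : A ∈ Gt) (hc : A.1 1 0 = 0) :
    ((A.1 0 0 = 1 ∧ A.1 1 1 = 1) ∨ (A.1 0 0 = -1 ∧ A.1 1 1 = -1)) ∧ ∃ y, A.1 0 1 = 2 * y := by
  obtain ⟨h1, h2⟩ := mem_Gt.1 hA
  have hdet := det_eq A
  rw [hc, map_zero] at h1
  rw [← h1, mul_zero, add_zero] at h2
  have h3 : A.1 0 0 * A.1 1 1 = 1 := by
    rw [hc] at hdet
    linear_combination hdet
  have h4 : red (A.1 0 0) * red (A.1 0 0) = 1 := by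
    nth_rewrite 2 [← h2]
    rw [← map_mul, h3, map_one]
  exact ⟨unit_of_mul h3 (F4_sq_one' h4), red_eq_zero.1 h1.symm⟩

theorem F4_trace : ∀ a0 a1 b0 b1 t : ZMod 2,
    (fun a b w : F4 => a * (a + w * b) - b * b = 1 ∧ a + (a + w * b) = ⟨t, 0⟩ →
      a = 1 ∧ b = 0) ⟨a0, a1⟩ ⟨b0, b1⟩ ⟨0, 1⟩ := by
  decide

/-- The rational trace of an element of the group is even and the element is `1` mod 2. -/
theorem trace_red {A : SpecialLinearGroup (Fin 2) Eis} (hA : A ∈ Gt)
    (ht : (A.1 0 0 + A.1 1 1).im = 0) : red (A.1 0 0) = 1 ∧ red (A.1 0 1) = 0 := by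
  obtain ⟨h1, h2⟩ := mem_Gt.1 hA
  have hdet := congrArg red (det_eq A)
  rw [map_sub, map_mul, map_mul, map_one, h1, h2] at hdet
  have htr : red (A.1 0 0) + red (A.1 1 1) = ⟨((A.1 0 0 + A.1 1 1).re : ZMod 2), 0⟩ := by
    rw [← map_add]
    ext
    · rfl
    · change (((A.1 0 0 + A.1 1 1).im : ℤ) : ZMod 2) = 0
      rw [ht, Int.cast_zero]
  rw [h2] at htr
  have := F4_trace (red (A.1 0 0)).re (red (A.1 0 0)).im (red (A.1 0 1)).re (red (A.1 0 1)).im
    ((A.1 0 0 + A.1 1 1).re : ZMod 2)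
  exact this ⟨hdet, htr⟩

/-- An element of the group whose trace is a rational integer is not of trace `0`, `1`, `-1`. -/
theorem trace_ne {A : SpecialLinearGroup (Fin 2) Eis} (hA : A ∈ Gt)
    (ht : (A.1 0 0 + A.1 1 1).im = 0) : 2 ≤ |(A.1 0 0 + A.1 1 1).re| := by
  obtain ⟨ha, hb⟩ := trace_red hA ht
  obtain ⟨h1, h2⟩ := mem_Gt.1 hA
  rw [hb, mul_zero, add_zero, ha] at h2
  obtain ⟨x, hx⟩ := red_eq_zero.1 (show red (A.1 0 0 - 1) = 0 by rw [map_sub, ha, map_one, sub_self])
  obtain ⟨y, hy⟩ := red_eq_zero.1 (show red (A.1 1 1 - 1) = 0 by rw [map_sub, h2, map_one, sub_self])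
  obtain ⟨b, hb'⟩ := red_eq_zero.1 hb
  obtain ⟨c, hc'⟩ := red_eq_zero.1 (h1.trans hb)
  have hdet := det_eq A
  have hre := congrArg QuadraticAlgebra.re hdet
  have ha' : A.1 0 0 = 1 + 2 * x := by linear_combination hx
  have hd' : A.1 1 1 = 1 + 2 * y := by linear_combination hy
  rw [ha', hd', hb', hc'] at hdet
  rw [ha', hd']
  have hsum : x + y + 2 * (x * y - b * c) = 0 := by
    have h4 : (2 : Eis) * (x + y + 2 * (x * y - b * c)) = 2 * 0 := by linear_combination hdet
    have h5 := congrArg QuadraticAlgebra.re h4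
    have h6 := congrArg QuadraticAlgebra.im h4
    ext
    · simp only [re_mul, re_ofNat, im_ofNat, re_zero] at h5 ⊢
      omega
    · simp only [im_mul, re_ofNat, im_ofNat, im_zero] at h6 ⊢
      omega
  have h7 := congrArg QuadraticAlgebra.re hsum
  simp only [re_add, re_mul, re_ofNat, im_ofNat, re_zero, re_sub] at h7
  have h8 : (1 + 2 * x + (1 + 2 * y)).re = 2 + 2 * (x.re + y.re) := by
    simp only [re_add, re_one, re_mul, re_ofNat, im_ofNat]
    ring
  rw [h8]
  have h9 : ∃ k, x.re + y.re = 2 * k := by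
    refine ⟨-(x.re * y.re + -1 * x.im * y.im - (b.re * c.re + -1 * b.im * c.im)), ?_⟩
    linarith
  obtain ⟨k, hk⟩ := h9
  rw [hk]
  rcases le_or_gt 0 k with h | h
  · rw [abs_of_nonneg (by omega)]
    omega
  · rw [abs_of_neg (by omega)]
    omega

theorem F4_norm : ∀ c0 c1 d0 d1 : ZMod 2, ¬ (c0 = 0 ∧ c1 = 0 ∧ d0 = 0 ∧ d1 = 0) → ∃ e : Fin 3,
    (fun c d w : F4 => (d * d + w * c * d + c * c) * (w ^ (e : ℕ) * w ^ (e : ℕ)) = 1)
      ⟨c0, c1⟩ ⟨d0, d1⟩ ⟨0, 1⟩ := by
  decide

/-- upper triangular matrices -/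
def upperMat (v s u : Eis) (h : v * u = 1) : SpecialLinearGroup (Fin 2) Eis :=
  ⟨!![v, s; 0, u], by rw [det_fin_two_of]; linear_combination h⟩

theorem upperMat_mul (v s u : Eis) (h : v * u = 1) (A : SpecialLinearGroup (Fin 2) Eis) :
    (upperMat v s u h * A).1 0 0 = v * A.1 0 0 + s * A.1 1 0 ∧
    (upperMat v s u h * A).1 0 1 = v * A.1 0 1 + s * A.1 1 1 ∧
    (upperMat v s u h * A).1 1 0 = u * A.1 1 0 ∧
    (upperMat v s u h * A).1 1 1 = u * A.1 1 1 := by
  refine ⟨?_, ?_, ?_, ?_⟩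
  · change (!![v, s; 0, u] * A.1) 0 0 = _
    simp [mul_apply, Fin.sum_univ_two]
  · change (!![v, s; 0, u] * A.1) 0 1 = _
    simp [mul_apply, Fin.sum_univ_two]
  · change (!![v, s; 0, u] * A.1) 1 0 = _
    simp [mul_apply, Fin.sum_univ_two]
  · change (!![v, s; 0, u] * A.1) 1 1 = _
    simp [mul_apply, Fin.sum_univ_two]

/-- `SL₂(ℤ[ω])` is the product of the upper triangular group and the congruence group. -/
theorem exists_upper (A : SpecialLinearGroup (Fin 2) Eis) :
    ∃ B : SpecialLinearGroup (Fin 2) Eis, B.1 1 0 = 0 ∧ B * A ∈ Gt := by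
  have hdet := congrArg red (det_eq A)
  rw [map_sub, map_mul, map_mul, map_one] at hdet
  set a := red (A.1 0 0) with ha
  set b := red (A.1 0 1) with hb
  set c := red (A.1 1 0) with hc
  set d := red (A.1 1 1) with hd
  have hne : ¬ (c.re = 0 ∧ c.im = 0 ∧ d.re = 0 ∧ d.im = 0) := by
    rintro ⟨h1, h2, h3, h4⟩
    have hc0 : c = 0 := QuadraticAlgebra.ext h1 h2
    have hd0 : d = 0 := QuadraticAlgebra.ext h3 h4
    rw [hc0, hd0] at hdet
    simp at hdet
  obtain ⟨e, he⟩ := F4_norm c.re c.im d.re d.im hne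
  have he' : (d * d + red w * c * d + c * c) * (red w ^ (e : ℕ) * red w ^ (e : ℕ)) = 1 := he
  set u : Eis := w ^ (e : ℕ) with hu
  have hw3 : w ^ 3 = 1 := by
    have := w_cube
    linear_combination this
  -- `v = u⁻¹`
  obtain ⟨v, hv⟩ : ∃ v, v = u * u := ⟨_, rfl⟩
  have huv : u * v = 1 := by
    have : u * v = (w ^ 3) ^ (e : ℕ) := by
      rw [hv, hu]
      ring
    rw [this, hw3, one_pow]
  have hN : (d * d + red w * c * d + c * c) * (red u * red u) = 1 := by
    rw [hu, map_pow]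
    exact he'
  have huv' : red u * red v = 1 := by rw [← map_mul, huv, map_one]
  -- new bottom row `(u c, u d)`; the top row is multiplied by `v = u⁻¹`
  set c1 := red u * c with hc1
  set d1 := red u * d with hd1
  set a2 := red v * a with ha2
  set b2 := red v * b with hb2
  set al := d1 - red w * c1 with hal
  have h2 := two_F4
  have hn1 : al * d1 - c1 * c1 = 1 := by
    rw [hal, hc1, hd1]
    linear_combination hN - (red u * red u * (red w * c * d + c * c)) * h2
  have hd2 : a2 * d1 - b2 * c1 = 1 := by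
    rw [ha2, hb2, hc1, hd1]
    linear_combination hdet + (a * d - b * c) * huv'
  obtain ⟨s, hs⟩ := red_surj (c1 * a2 - al * b2)
  have hvu : v * u = 1 := by rw [mul_comm]; exact huv
  refine ⟨upperMat v (s * u) u hvu, rfl, ?_⟩
  obtain ⟨e00, e01, e10, e11⟩ := upperMat_mul v (s * u) u hvu A
  rw [mem_Gt, e00, e01, e10, e11]
  simp only [map_add, map_mul]
  rw [← ha, ← hb, ← hc, ← hd, hs]
  have g01 : red v * b + (c1 * a2 - al * b2) * red u * d = c1 := by
    linear_combination (-b2) * hn1 + c1 * hd2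
  have g00 : red v * a + (c1 * a2 - al * b2) * red u * c = al := by
    linear_combination (-a2) * hn1 + al * hd2
  rw [g01, g00]
  refine ⟨rfl, ?_⟩
  rw [hal]
  ring

end QIG.Ex
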