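import Pool.Agent.W_a51130_h62.Defs
import Pool.Agent.W_a51130_h68.Act
import Pool.Agent.W_a51130_h68.Grp

/-! Poincaré extension in the coordinates of `HPt 2` (coordinates divided by `2`). -/

namespace QIG.Ex

open Matrix ComplexConjugate

/-- The complex coordinate of the horizontal part. -/
noncomputable def cz (v : E 2) : ℂ := ⟨v 0, v 1⟩

/-- The vector of a complex number. -/
noncomputable def vec (z : ℂ) : E 2 := WithLp.toLp 2 ![z.re, z.im]

theorem vec_cz (v : E 2) : vec (cz v) = v := by
  ext i
  fin_cases i <;> simp [vec, cz]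

theorem cz_vec (z : ℂ) : cz (vec z) = z := by
  apply Complex.ext <;> simp [vec, cz]

theorem cz_injective : Function.Injective cz := by
  intro v w h
  rw [← vec_cz v, ← vec_cz w, h]

theorem cz_add (v w : E 2) : cz (v + w) = cz v + cz w := by
  apply Complex.ext <;> simp [cz]

theorem cz_sub (v w : E 2) : cz (v - w) = cz v - cz w := by
  apply Complex.ext <;> simp [cz]

theorem norm_sq_cz (v : E 2) : ‖v‖ ^ 2 = Complex.normSq (cz v) := by
  rw [EuclideanSpace.real_norm_sq_eq, Fin.sum_univ_two, Complex.normSq_apply]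
  simp only [cz]
  ring

theorem two_cz_sub (v w : E 2) : Complex.normSq (2 * cz v - 2 * cz w) = 4 * ‖v - w‖ ^ 2 := by
  rw [norm_sq_cz, cz_sub, ← mul_sub, map_mul]
  have h2 : Complex.normSq 2 = 4 := by
    rw [Complex.normSq_ofNat]
    norm_num
  rw [h2]

/-- Change of coordinates, multiplication by `2`. -/
noncomputable def toHC : HPt 2 ≃ HC where
  toFun x := ⟨2 * cz x.u, 2 * x.t, by have := x.pos; positivity⟩
  invFun y := ⟨vec (y.z / 2), y.t / 2, by have := y.pos; positivity⟩
  left_inv x := by
    apply HPt.ext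
    · change vec (2 * cz x.u / 2) = x.u
      rw [mul_div_cancel_left₀ _ two_ne_zero, vec_cz]
    · change 2 * x.t / 2 = x.t
      ring
  right_inv y := by
    apply HC.ext'
    · change 2 * cz (vec (y.z / 2)) = y.z
      rw [cz_vec]
      ring
    · change 2 * (y.t / 2) = y.t
      ring

theorem toHC_z (x : HPt 2) : (toHC x).z = 2 * cz x.u := rfl
theorem toHC_t (x : HPt 2) : (toHC x).t = 2 * x.t := rfl

theorem chd_eq (x y : HPt 2) : chd x y = qq (toHC x) (toHC y) / 2 - 1 := by
  have hx := x.pos
  have hy := y.pos
  rw [chd, qq, toHC_z, toHC_z, toHC_t, toHC_t, two_cz_sub]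
  field_simp
  ring

/-- The action of `SL₂(ℂ)` as a homomorphism. -/
noncomputable def actHom : SpecialLinearGroup (Fin 2) ℂ →* Equiv.Perm HC where
  toFun M := ⟨act M, act M⁻¹, fun x => by rw [← act_mul, inv_mul_cancel, act_one],
    fun x => by rw [← act_mul, mul_inv_cancel, act_one]⟩
  map_one' := by
    apply Equiv.ext
    intro x
    exact act_one x
  map_mul' M N := by
    apply Equiv.ext
    intro x
    exact act_mul M N x

/-- The Poincaré extension of an Eisenstein matrix in the coordinates of `HPt 2`. -/
noncomputable def poinc : SpecialLinearGroup (Fin 2) Eis →* Equiv.Perm (HPt 2) :=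
  ((toHC.symm.permCongrHom).toMonoidHom.comp actHom).comp (SpecialLinearGroup.map iota)

/-- the complex matrix -/
noncomputable abbrev cm (A : SpecialLinearGroup (Fin 2) Eis) : SpecialLinearGroup (Fin 2) ℂ :=
  SpecialLinearGroup.map iota A

theorem cm_apply (A : SpecialLinearGroup (Fin 2) Eis) (i j : Fin 2) :
    (cm A).1 i j = iota (A.1 i j) := rfl

theorem toHC_poinc (A : SpecialLinearGroup (Fin 2) Eis) (x : HPt 2) :
    toHC (poinc A x) = act (cm A) (toHC x) := by
  change toHC (toHC.symm (act (cm A) (toHC x))) = _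
  rw [Equiv.apply_symm_apply]

theorem chd_poinc (A : SpecialLinearGroup (Fin 2) Eis) (x y : HPt 2) :
    chd (poinc A x) (poinc A y) = chd x y := by
  rw [chd_eq, chd_eq, toHC_poinc, toHC_poinc, qq_act]

/-- Fixed points of elements of the congruence group. -/
theorem fixed {A : SpecialLinearGroup (Fin 2) Eis} (hA : A ∈ Gt) {y : HC}
    (h : act (cm A) y = y) : A.1 1 0 = 0 := by
  set a := iota (A.1 0 0) with ha
  set b := iota (A.1 0 1) with hb
  set c := iota (A.1 1 0) with hc
  set d := iota (A.1 1 1) with hd
  have hdet : a * d - b * c = 1 := by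
    rw [ha, hb, hc, hd, ← map_mul, ← map_mul, ← map_sub, det_eq, map_one]
  have ht := congrArg HC.t h
  have hz := congrArg HC.z h
  rw [act_t] at ht
  have hden : den (cm A) y = 1 := by
    have h1 := den_pos (cm A) y
    have h2 := y.pos
    rw [div_eq_iff h1.ne'] at ht
    nlinarith
  rw [act_z, hden] at hz
  simp only [den, cm_apply] at hden hz
  rw [← ha, ← hb, ← hc, ← hd] at hz
  rw [← hc, ← hd] at hden
  rw [Complex.ofReal_one, div_one] at hz
  have hden' : (c * y.z + d) * conj (c * y.z + d) + c * conj c * y.t ^ 2 = 1 := by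
    rw [Complex.mul_conj, Complex.mul_conj]
    exact_mod_cast hden
  -- the key identity
  have key : a - c * y.z = conj (c * y.z + d) := by
    have e1 : (a * y.z + b - y.z * (c * y.z + d)) * conj (c * y.z + d) +
        (a - c * y.z) * conj c * y.t ^ 2 = 0 := by
      linear_combination hz - y.z * hden'
    have e2 : (a - c * y.z) * (c * y.z + d) - (a * y.z + b - y.z * (c * y.z + d)) * c = 1 := by
      linear_combination hdet
    linear_combination (-(a - c * y.z)) * hden' + c * e1 + conj (c * y.z + d) * e2
  have htr : iota (A.1 0 0 + A.1 1 1) = ((2 * (c * y.z + d).re : ℝ) : ℂ) := by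
    rw [map_add, ← ha, ← hd]
    have : a + d = (c * y.z + d) + conj (c * y.z + d) := by
      rw [← key]
      ring
    rw [this, Complex.add_conj]
  have him : (A.1 0 0 + A.1 1 1).im = 0 := by
    have := congrArg Complex.im htr
    rw [iota_apply, Complex.ofReal_im] at this
    simp only [om, Complex.add_im, Complex.intCast_im, Complex.mul_im, Complex.intCast_re] at this
    have h3 : (0 : ℝ) < √3 / 2 := by positivity
    have h4 : ((A.1 0 0 + A.1 1 1).im : ℝ) * (√3 / 2) = 0 := by linarith
    have h5 := (mul_eq_zero.1 h4).resolve_right h3.ne'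
    exact_mod_cast h5
  have htn := trace_ne hA him
  have hre : ((A.1 0 0 + A.1 1 1).re : ℝ) = 2 * (c * y.z + d).re := by
    have := congrArg Complex.re htr
    rw [iota_apply, Complex.ofReal_re, him] at this
    simpa using this
  have h1 : (1 : ℝ) ≤ (c * y.z + d).re ^ 2 := by
    have h2 : (2 : ℝ) ≤ |((A.1 0 0 + A.1 1 1).re : ℝ)| := by exact_mod_cast htn
    rw [hre, abs_mul, abs_two] at h2
    have h3 : 1 ≤ |(c * y.z + d).re| := by linarith
    rw [← sq_abs]
    nlinarith
  have h2 : (c * y.z + d).re ^ 2 ≤ Complex.normSq (c * y.z + d) := by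
    rw [Complex.normSq_apply]
    nlinarith [sq_nonneg (c * y.z + d).im]
  by_contra hne
  have h3 := one_le_normSq hne
  rw [← hc] at h3
  have h4 := y.pos
  have h5 : 0 < Complex.normSq c * y.t ^ 2 := by positivity
  linarith

/-- Upper triangular elements of the congruence group are translations. -/
theorem poinc_upper {A : SpecialLinearGroup (Fin 2) Eis} (hA : A ∈ Gt) (hc : A.1 1 0 = 0) :
    ∃ y : Eis, poinc A = transl (vec (iota y)) := by
  obtain ⟨h1, b, hb⟩ := upper hA hc
  have key : ∀ s : Eis, A.1 0 0 = s → A.1 1 1 = s → s * s = 1 → conj (iota s) = iota s →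
      poinc A = transl (vec (iota (s * b))) := by
    intro s hs1 hs2 hs3 hs4
    have hss : iota s * iota s = 1 := by rw [← map_mul, hs3, map_one]
    have hn : Complex.normSq (iota s) = 1 := by
      have := Complex.mul_conj (iota s)
      rw [hs4, hss] at this
      exact_mod_cast this.symm
    apply Equiv.ext
    intro x
    apply toHC.injective
    have hden : den (cm A) (toHC x) = 1 := by
      simp only [den, cm_apply]
      rw [hc, hs2]
      simp [hn]
    rw [toHC_poinc]
    apply HC.ext'
    · rw [act_z, hden]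
      simp only [cm_apply]
      rw [hc, hs1, hs2, hb]
      change _ = 2 * cz (x.u + vec (iota (s * b)))
      rw [cz_add, cz_vec, toHC_z]
      simp only [map_zero, zero_mul, zero_add, mul_zero, add_zero, Complex.ofReal_one, div_one]
      rw [hs4, map_mul, map_mul, map_ofNat]
      linear_combination (2 * cz x.u) * hss
    · rw [act_t, hden, div_one]
      rfl
  rcases h1 with ⟨h2, h3⟩ | ⟨h2, h3⟩
  · exact ⟨_, key 1 h2 h3 (by ring) (by simp)⟩
  · exact ⟨_, key (-1) h2 h3 (by ring) (by simp)⟩

/-- The translation by an Eisenstein integer is in the image of the congruence group. -/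
theorem transl_mem (y : Eis) : ∃ A ∈ Gt, A.1 1 0 = 0 ∧ poinc A = transl (vec (iota y)) := by
  have h1 : (upperMat 1 (2 * y) 1 (one_mul 1)) ∈ Gt := by
    rw [mem_Gt]
    have h2 : red 2 = 0 := by decide
    constructor
    · change red 0 = red (2 * y)
      rw [map_zero, map_mul, h2, zero_mul]
    · change red 1 = red 1 + red w * red (2 * y)
      rw [map_mul, h2, zero_mul, mul_zero, add_zero]
  refine ⟨_, h1, rfl, ?_⟩
  apply Equiv.ext
  intro x
  apply toHC.injective
  have hden : den (cm (upperMat 1 (2 * y) 1 (one_mul 1))) (toHC x) = 1 := by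
    simp only [den, cm_apply]
    change Complex.normSq (iota 0 * (toHC x).z + iota 1) + Complex.normSq (iota 0) * _ = 1
    simp
  rw [toHC_poinc]
  apply HC.ext'
  · rw [act_z, hden]
    simp only [cm_apply]
    change ((iota 1 * (toHC x).z + iota (2 * y)) * conj (iota 0 * (toHC x).z + iota 1) +
      iota 1 * conj (iota 0) * _) / _ = 2 * cz (x.u + vec (iota y))
    rw [cz_add, cz_vec, toHC_z]
    simp only [map_zero, map_one, zero_mul, zero_add, mul_zero, add_zero, Complex.ofReal_one,
      div_one, mul_one, one_mul]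
    rw [map_mul, map_ofNat]
    ring
  · rw [act_t, hden, div_one]
    rfl

end QIG.Ex
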