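import Mathlib

/-! The Eisenstein integers `ℤ[ω]`, their embedding in `ℂ` and their reduction mod 2. -/

namespace QIG.Ex

open QuadraticAlgebra ComplexConjugate

/-- The Eisenstein integers `a + b ω`, `ω² = -1 - ω`. -/
abbrev Eis : Type := QuadraticAlgebra ℤ (-1) (-1)

/-- The primitive third root of unity `ω`. -/
noncomputable def om : ℂ := ⟨-1 / 2, √3 / 2⟩

theorem om_mul : om * om = -1 - om := by
  have h3 : √3 * √3 = 3 := Real.mul_self_sqrt (by norm_num)
  apply Complex.ext
  · simp only [om, Complex.mul_re, Complex.sub_re, Complex.neg_re, Complex.one_re]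
    linear_combination (-1 / 4) * h3
  · simp only [om, Complex.mul_im, Complex.sub_im, Complex.neg_im, Complex.one_im]
    ring

/-- The embedding of the Eisenstein integers in `ℂ`. -/
noncomputable def iota : Eis →+* ℂ where
  toFun x := x.re + x.im * om
  map_one' := by simp
  map_mul' x y := by
    simp only [re_mul, im_mul]
    push_cast
    linear_combination (-(x.im : ℂ) * y.im) * om_mul
  map_zero' := by simp
  map_add' x y := by
    simp only [re_add, im_add]
    push_cast
    ring

theorem iota_apply (x : Eis) : iota x = x.re + x.im * om := rfl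

theorem normSq_form (a b : ℝ) : Complex.normSq (a + b * om) = a ^ 2 - a * b + b ^ 2 := by
  have h3 : √3 * √3 = 3 := Real.mul_self_sqrt (by norm_num)
  simp only [Complex.normSq_apply, Complex.add_re, Complex.add_im, Complex.ofReal_re,
    Complex.ofReal_im, Complex.mul_re, Complex.mul_im, om]
  linear_combination (b ^ 2 / 4) * h3

theorem normSq_iota (x : Eis) :
    Complex.normSq (iota x) = ((x.re ^ 2 - x.re * x.im + x.im ^ 2 : ℤ) : ℝ) := by
  have := normSq_form (x.re : ℝ) (x.im : ℝ)
  rw [iota_apply]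
  push_cast
  rw [← this]
  norm_cast

theorem one_le_normSq {x : Eis} (hx : x ≠ 0) : 1 ≤ Complex.normSq (iota x) := by
  rw [normSq_iota]
  have h : 0 < x.re ^ 2 - x.re * x.im + x.im ^ 2 := by
    by_contra hc
    push Not at hc
    have h1 : x.im = 0 := by
      have : 3 * x.im ^ 2 ≤ 0 := by nlinarith [sq_nonneg (2 * x.re - x.im)]
      have h2 : x.im ^ 2 = 0 := le_antisymm (by linarith) (sq_nonneg _)
      exact pow_eq_zero_iff (two_ne_zero) |>.1 h2
    have h2 : x.re = 0 := by
      rw [h1] at hc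
      have h2 : x.re ^ 2 = 0 := le_antisymm (by linarith) (sq_nonneg _)
      exact pow_eq_zero_iff (two_ne_zero) |>.1 h2
    exact hx (QuadraticAlgebra.ext h2 h1)
  exact_mod_cast h

theorem iota_injective : Function.Injective iota := by
  rw [injective_iff_map_eq_zero]
  intro x hx
  by_contra hne
  have := one_le_normSq hne
  rw [hx, map_zero] at this
  linarith

theorem abs_coord_le (x : Eis) {r : ℝ} (h : Complex.normSq (iota x) ≤ r) :
    (x.re : ℝ) ^ 2 ≤ 2 * r ∧ (x.im : ℝ) ^ 2 ≤ 2 * r := by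
  rw [normSq_iota] at h
  push_cast at h
  constructor <;> nlinarith [sq_nonneg ((x.re : ℝ) - x.im), sq_nonneg ((x.re : ℝ) - 2 * x.im),
    sq_nonneg (2 * (x.re : ℝ) - x.im)]

theorem finite_normSq_le (r : ℝ) : {x : Eis | Complex.normSq (iota x) ≤ r}.Finite := by
  obtain ⟨N, hN⟩ := exists_nat_ge (max (2 * r) 1)
  have hN1 : (1 : ℝ) ≤ N := (le_max_right _ _).trans hN
  have hN2 : 2 * r ≤ N := (le_max_left _ _).trans hN
  have hfin : ((Set.Icc (-(N : ℤ)) N) ×ˢ (Set.Icc (-(N : ℤ)) N)).Finite :=
    (Set.finite_Icc _ _).prod (Set.finite_Icc _ _)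
  refine (hfin.image (fun p : ℤ × ℤ => (⟨p.1, p.2⟩ : Eis))).subset ?_
  intro x hx
  obtain ⟨h1, h2⟩ := abs_coord_le x hx
  have key : ∀ k : ℤ, (k : ℝ) ^ 2 ≤ 2 * r → k ∈ Set.Icc (-(N : ℤ)) N := by
    intro k hk
    have h3 : (k : ℝ) ^ 2 ≤ (N : ℝ) ^ 2 := by nlinarith
    have h4 := abs_le_of_sq_le_sq' h3 (by linarith)
    constructor
    · have := h4.1
      exact_mod_cast this
    · have := h4.2
      exact_mod_cast this
  exact ⟨(x.re, x.im), ⟨key _ h1, key _ h2⟩, rfl⟩

/-- Every complex number is at distance `< 1` from an Eisenstein integer. -/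
theorem exists_near (z : ℂ) : ∃ x : Eis, Complex.normSq (z - iota x) ≤ 3 / 4 := by
  set b : ℝ := z.im / (√3 / 2) with hb
  set a : ℝ := z.re + b / 2 with ha
  have h3 : (0 : ℝ) < √3 / 2 := by positivity
  have hz : z = (a : ℂ) + b * om := by
    apply Complex.ext
    · simp only [om, Complex.add_re, Complex.ofReal_re, Complex.mul_re, Complex.ofReal_im]
      rw [ha]
      ring
    · simp only [om, Complex.add_im, Complex.ofReal_re, Complex.mul_im, Complex.ofReal_im]
      rw [hb]
      field_simp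
      ring
  refine ⟨⟨round a, round b⟩, ?_⟩
  have h1 := abs_sub_round a
  have h2 := abs_sub_round b
  have h4 : z - iota ⟨round a, round b⟩ = ((a - round a : ℝ) : ℂ) + ((b - round b : ℝ) : ℂ) * om := by
    rw [iota_apply, hz]
    push_cast
    ring
  rw [h4, normSq_form]
  rw [abs_le] at h1 h2
  nlinarith [h1.1, h1.2, h2.1, h2.2]

theorem exists_near_two (z : ℂ) : ∃ x : Eis, Complex.normSq (z - iota (2 * x)) ≤ 3 := by
  obtain ⟨x, hx⟩ := exists_near (z / 2)
  refine ⟨x, ?_⟩
  have : z - iota (2 * x) = 2 * (z / 2 - iota x) := by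
    rw [map_mul, map_ofNat]
    ring
  rw [this, map_mul]
  have h2 : Complex.normSq 2 = 4 := by
    rw [Complex.normSq_ofNat]
    norm_num
  rw [h2]
  linarith

/-- The field with four elements. -/
abbrev F4 : Type := QuadraticAlgebra (ZMod 2) (-1) (-1)

/-- Reduction mod 2. -/
def red : Eis →+* F4 where
  toFun x := ⟨x.re, x.im⟩
  map_one' := by ext <;> simp
  map_mul' x y := by ext <;> simp
  map_zero' := by ext <;> simp
  map_add' x y := by ext <;> simp

theorem red_eq_zero {x : Eis} : red x = 0 ↔ ∃ y, x = 2 * y := by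
  constructor
  · intro h
    have h1 : (x.re : ZMod 2) = 0 := congrArg QuadraticAlgebra.re h
    have h2 : (x.im : ZMod 2) = 0 := congrArg QuadraticAlgebra.im h
    rw [ZMod.intCast_zmod_eq_zero_iff_dvd] at h1 h2
    obtain ⟨a, ha⟩ := h1
    obtain ⟨b, hb⟩ := h2
    refine ⟨⟨a, b⟩, ?_⟩
    ext
    · simp [ha]
    · simp [hb]
  · rintro ⟨y, rfl⟩
    rw [map_mul]
    have : red 2 = 0 := by decide
    rw [this, zero_mul]

theorem red_surj (y : F4) : ∃ x : Eis, red x = y := by
  refine ⟨⟨y.re.val, y.im.val⟩, ?_⟩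
  ext
  · change ((y.re.val : ℤ) : ZMod 2) = y.re
    simp
  · change ((y.im.val : ℤ) : ZMod 2) = y.im
    simp

/-- `ω` in the Eisenstein integers -/
def w : Eis := ⟨0, 1⟩

theorem w_sq : w * w = -1 - w := by
  ext <;> simp [w]

theorem w_cube : w * (w * w) = 1 := by
  rw [w_sq]
  have := w_sq
  linear_combination -this

end QIG.Ex
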